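import Pool.Agent.AT3.Stmts3
import Pool.Agent.Helper43_AT3.QT2
import Pool.Agent.Helper43_DF.Cov
import Pool.Agent.Helper3_C2.GDV
import Pool.Agent.Helper69_K9.Fmg
import Pool.Agent.Helper97_K9.NZR

/-!
# AT3, row QT1: the defect groups of the blocks of `N(Q)/Q`
-/

open scoped BigOperators

noncomputable section

namespace Pool.Agent.PP.T3.H65

open Pool.Agent.Helper51_AWC Pool.Agent.Helper79_WRA Pool.Agent.PP Pool.Agent.PP.KF
open Pool.Agent.PP.K9 Pool.Agent.PP.K9.H97 Pool.Agent.PP.H75 Pool.Agent.PP.T3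

attribute [local instance] Ideal.Quotient.field

set_option linter.unusedSectionVars false

section cov

variable {F A : Type} [Field F] [Group A] [Finite A]

/-- the product with a block of a normal subgroup is supported on its stabiliser -/
theorem supp_st {C : Subgroup A} {g f : A → F} (hg : Bd C g) (hf : IsIdem f) :
    ∀ x, x ∉ st g → mulF f g x = 0 := by
  intro x hx
  have := Fintype.ofFinite (Om g)
  have h2 : (omk g 1).1 = g := omk_one
  have h1 := (hg.fam2 hf).supp (omk g 1) x (by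
    intro h
    rw [om_stab, h2] at h
    exact hx h)
  change mulF f (omk g 1).1 x = 0 at h1
  rwa [h2] at h1

/-- the defect groups of a block of a normal subgroup are good for the blocks over it -/
theorem cover_gd {ℓ : ℕ} (hF : GoodF ℓ F) {C : Subgroup A} {g f : A → F} (hg : Bd C g)
    (hf : IsIdem f) (hfg : mulF f g ≠ 0) {P : Subgroup A} (hPC : P ≤ C) (hP : IsPGroup ℓ P)
    (hgP : Gd g P) : Gd f P := by
  obtain ⟨S, hS⟩ : ∃ S : Subgroup A, S = st g := ⟨_, rfl⟩
  have hCS : C ≤ S := by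
    rw [hS]
    exact hg.le
  have hsup : ∀ x, x ∉ S → mulF f g x = 0 := by
    rw [hS]
    exact supp_st hg hf
  have hidem : mulF (mulF f g) (mulF f g) = mulF f g := by
    rw [smul_mul_idem hf, hg.idem]
  have hcj : ∀ s ∈ S, cj s g = g := by
    intro s hs
    rw [hS] at hs
    exact hs
  have hcl : ∀ s ∈ S, ∀ x, g (s * x * s⁻¹) = g x := fun s hs =>
    (cj_eq_iff s g).1 (hcj s hs)
  have hI : IsIdem (fun t : S => mulF f g t) := by
    refine ⟨?_, ?_⟩
    · intro x y
      have h1 : cj (y : A) (mulF f g) = mulF f g := by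
        rw [cj_mulF, cj_isCl _ hf.1, hcj y y.2]
      exact (cj_eq_iff _ _).1 h1 x
    · rw [← mulF_res S (mulF f g) hsup, hidem]
  have h0 : (fun t : S => mulF f g t) ≠ 0 := by
    intro h
    exact hfg (eq_of_res hsup (fun _ _ => rfl) h)
  have hm : mulF (fun t : S => mulF f g t) (fun t : S => g t) = fun t : S => mulF f g t := by
    rw [← mulF_res S g hsup, H20.mulF_assoc, hg.idem]
  have hB : SBlk (C.subgroupOf S) (fun t : S => g t) := by
    refine ⟨?_, ?_, ?_⟩
    · intro x hx
      exact hg.supp x (fun h => hx (Subgroup.mem_subgroupOf.2 h))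
    · intro x y
      exact hcl y y.2 x
    · exact H20.IsBlk_equiv (Subgroup.subgroupOfEquivOfLe hCS) hg.blk
  have hn : (C.subgroupOf S).Normal := by
    have := hg.normal
    exact Subgroup.normal_subgroupOf
  have hPS : P ≤ S := hPC.trans hCS
  obtain ⟨x, hx, hx0⟩ := DF.H43.covE ℓ F hF S (C.subgroupOf S) hn _ hB _ hI h0 hm
    (P.subgroupOf S) (fun y hy => Subgroup.mem_subgroupOf.2 (hPC (Subgroup.mem_subgroupOf.1 hy)))
    (hP.comap_of_injective S.subtype S.subtype_injective) (by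
      obtain ⟨y, hy, hy0⟩ := hgP
      have hyC : y ∈ C := by
        by_contra h
        exact hy0 (hg.supp y h)
      exact ⟨⟨y, hCS hyC⟩, (cent_sub hPS _).2 hy, hy0⟩)
  have hinv : H66.Inv P g := fun p hp t => hcl p (hPS hp) t
  have hbr := H66.br_mulF hF hP (H66.IsCl.inv hf.1 P) hinv
  apply C2.H3.gd_of_br'
  intro h
  rw [h, mulF_zero_left] at hbr
  apply hx0
  have h1 := congrFun hbr (x : A)
  rw [H66.br_of_mem ((cent_sub hPS _).1 hx)] at h1
  exact h1

end cov

section pushes

variable {F G A : Type} [Field F] [Group G] [Finite G] [Group A] [Finite A]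

/-- the restriction of the image to the range -/
theorem push_range (q : G →* A) (b : G → F) :
    (fun t : q.range => push q b t) = push q.rangeRestrict b := by
  classical
  have := Fintype.ofFinite G
  funext y
  rw [push_eq, push_eq]
  refine Finset.sum_congr rfl fun x _ => ?_
  have h2 : q x = y ↔ q.rangeRestrict x = y := by
    constructor
    · intro h
      exact Subtype.ext h
    · rintro rfl
      rfl
  by_cases h : q x = y
  · rw [if_pos h, if_pos (h2.1 h)]
  · rw [if_neg h, if_neg (fun h' => h (h2.2 h'))]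

end pushes

/-- row QT1 -/
theorem qt1 (dug : DugStmt) (psg : PsgStmt) : Qt1Stmt := by
  intro ℓ _ M _ hM G _ _ e V γ hLd Q hQp A _ _ p hp hker f hf hff
  classical
  have hF : GoodF ℓ (FF M) := H50.fld ℓ Fact.out M hM
  obtain ⟨C, hC⟩ : ∃ C : Subgroup G, C = Subgroup.centralizer (Q : Set G) := ⟨_, rfl⟩
  have hCN : C ≤ Subgroup.normalizer (Q : Set G) := by
    rw [hC]
    exact Subgroup.centralizer_le_normalizer _
  have he : IsIdem e := hLd.blk.1
  have hmk : ∀ x : Subgroup.normalizer (Q : Set G), p x = 1 ↔ (x : G) ∈ Q := by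
    intro x
    rw [← MonoidHom.mem_ker, hker, Subgroup.mem_subgroupOf]
  have hf0 : f ≠ 0 := hf.2.1
  -- the idempotents
  obtain ⟨f', hf'⟩ : ∃ f' : A → FF M,
    f' = push p (fun t : Subgroup.normalizer (Q : Set G) => br Q e t) := ⟨_, rfl⟩
  have hbrQ : IsIdem (fun t : Subgroup.normalizer (Q : Set G) => br Q e t) :=
    (H20.brm ℓ (FF M) hF G Q _ hQp (by rw [← hC]; exact hCN) le_rfl).2.2 e he
  have hf'I : IsIdem f' := by
    rw [hf']
    exact push_isIdem hp hbrQ
  rw [← hf'] at hff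
  -- `Q` is good for `e`
  have hbr0 : br Q e ≠ 0 := by
    intro h
    apply hf0
    rw [← hff, hf', h]
    have h1 : push p (fun t : Subgroup.normalizer (Q : Set G) => (0 : G → FF M) t) = 0 :=
      push_zero p
    rw [h1, mulF_zero_left]
  have hQe : Gd e Q := C2.H3.gd_of_br' hbr0
  obtain ⟨hfm, -, -⟩ := K9.H69.fmg ℓ M hM G e hLd.blk V hLd.tp
  obtain ⟨g0, hg0⟩ := hfm Q hQp hQe
  have hQab : ∀ a ∈ Q, ∀ b ∈ Q, a * b = b * a := by
    intro a ha b hb
    have h1 := mem_conjS.1 (hg0 ha)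
    have h2 := mem_conjS.1 (hg0 hb)
    have h3 := hLd.ab _ h1 _ h2
    have h4 : g0 * (g0⁻¹ * a * g0 * (g0⁻¹ * b * g0)) * g0⁻¹ = a * b := by group
    have h5 : g0 * (g0⁻¹ * b * g0 * (g0⁻¹ * a * g0)) * g0⁻¹ = b * a := by group
    rw [← h4, ← h5, h3]
  have hQC : Q ≤ C := by
    rw [hC]
    intro a ha
    rw [Subgroup.mem_centralizer_iff]
    intro b hb
    exact hQab b hb a ha
  -- the homomorphism on the centraliser
  obtain ⟨q, hq⟩ : ∃ q : C →* A, q = p.comp (Subgroup.inclusion hCN) := ⟨_, rfl⟩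
  have hqk : ∀ c : C, c ∈ q.ker ↔ (c : G) ∈ Q := by
    intro c
    rw [MonoidHom.mem_ker, hq]
    exact hmk _
  have hqc : q.ker ≤ Subgroup.center C := by
    intro c hc
    rw [Subgroup.mem_center_iff]
    intro d
    apply Subtype.ext
    change (d : G) * c = c * d
    have h1 := hC.le d.2
    rw [Subgroup.mem_centralizer_iff] at h1
    exact (h1 c ((hqk c).1 hc)).symm
  have hqp : IsPGroup ℓ q.ker := by
    refine hQp.of_injective ((Subgroup.subtype C).comp q.ker.subtype |>.codRestrict Q ?_) ?_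
    · intro x
      exact (hqk x.1).1 x.2
    · intro a b hab
      apply Subtype.ext
      apply Subtype.ext
      exact congrArg (fun t : Q => (t : G)) hab
  have hkp : IsPGroup ℓ p.ker := by
    rw [hker]
    exact hQp.comap_of_injective (Subgroup.normalizer (Q : Set G)).subtype
      (Subgroup.normalizer (Q : Set G)).subtype_injective
  have hf'q : f' = push q (fun t : C => e t) := by
    rw [hf', T3.H43.push_res hCN p (a := br Q e) (by
      intro x hx
      rw [hC] at hx
      exact br_out e hx), ← hq]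
    congr 1
    funext t
    apply br_in
    rw [← hC]
    exact t.2
  have hconj : ∀ n ∈ Subgroup.normalizer (Q : Set G), ∀ c ∈ C, n * c * n⁻¹ ∈ C := by
    intro n hn c hc
    rw [hC, Subgroup.mem_centralizer_iff] at hc ⊢
    intro v hv
    have h1 : n⁻¹ * v * n ∈ Q := by
      have h2 := (Subgroup.mem_normalizer_iff.1 (inv_mem hn) v).1 hv
      rwa [inv_inv] at h2
    have h2 := hc _ h1
    calc v * (n * c * n⁻¹) = n * ((n⁻¹ * v * n) * c) * n⁻¹ := by group
      _ = n * (c * (n⁻¹ * v * n)) * n⁻¹ := by rw [h2]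
      _ = (n * c * n⁻¹) * v := by group
  have hnorm : q.range.Normal := by
    refine ⟨?_⟩
    rintro _ ⟨c, rfl⟩ a
    obtain ⟨n, rfl⟩ := hp a
    refine ⟨⟨(n : G) * c * (n : G)⁻¹, hconj n n.2 c c.2⟩, ?_⟩
    rw [hq]
    change p (Subgroup.inclusion hCN _) = p n * p (Subgroup.inclusion hCN c) * (p n)⁻¹
    rw [← map_inv, ← map_mul, ← map_mul]
    rfl
  have hbC : (fun t : C => br Q e t) = fun t : C => e t := by
    funext t
    apply br_in
    rw [← hC]
    exact t.2
  have heC : IsIdem (fun t : C => e t) := by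
    have h1 := (H20.brm ℓ (FF M) hF G Q C hQp hC.ge hCN).2.2 e he
    rwa [hbC] at h1
  -- the block of the centraliser
  obtain ⟨d0, hd0, hd01, hd02⟩ := K9.H24.exists_blk (fun a : C → FF M => mulF f (push q a))
    (by
      change mulF f (push q 0) = 0
      rw [push_zero]
      exact H46.mulF_zero _)
    (fun a b => by
      change mulF f (push q (a + b)) = mulF f (push q a) + mulF f (push q b)
      rw [T3.H43.push_add]
      exact H46.mulF_add _ _ _) heC (by
      change mulF f (push q (fun t : C => e t)) ≠ 0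
      rw [← hf'q, mulF_comm_cl hf.1.1, hff]
      exact hf0)
  change mulF f (push q d0) ≠ 0 at hd02
  obtain ⟨δ, hδ⟩ : ∃ δ : G → FF M, δ = H75.ext0 C d0 := ⟨_, rfl⟩
  have hδs : ∀ x, x ∉ C → δ x = 0 := by
    rw [hδ]
    exact H75.ext0_supp C d0
  have hδC : (fun t : C => δ t) = d0 := by
    rw [hδ]
    exact funext (H75.ext0_apply C d0)
  have hBδ : Bx C δ := ⟨hδs, by rw [hδC]; exact hd0⟩
  have hbs : ∀ x, x ∉ C → br Q e x = 0 := by
    intro x hx
    rw [hC] at hx
    exact br_out e hx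
  have hund : mulF (br Q e) δ = δ := by
    apply eq_of_res (mulF_supp C hbs hδs) hδs
    rw [mulF_res C δ hbs, hδC, hbC, hd01]
  obtain ⟨P, hQP, hPC, hP, hPV, hδP⟩ := dug ℓ M hM G e hLd.blk V hLd.tp hLd.ab Q hQp δ
    (by rw [← hC]; exact hBδ) (by
      rw [← hC, hδC]
      exact hd01)
  rw [← hC] at hPC
  have hPN : P ≤ Subgroup.normalizer (Q : Set G) := hPC.trans hCN
  -- `P` is good for `e`
  have hinvP : H66.Inv P δ := fun p hp t => C2.H3.ix_inv hBδ.ix (hPC hp) t
  have hIQ : Ix C (br Q e) := ⟨hbs, by rw [hbC]; exact heC⟩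
  have hinvQ : H66.Inv P (br Q e) := fun p hp t => C2.H3.ix_inv hIQ (hPC hp) t
  have hPe : mulF (br P e) (br P δ) = br P δ := by
    have h1 := congrArg (br P) hund
    rwa [H66.br_mulF hF hP hinvQ hinvP, C2.H3.br_br hQP] at h1
  have hGe : Gd e P := by
    apply C2.H3.gd_of_br'
    intro h0
    apply C2.H3.br_ne_of_gd hδP
    rw [← hPe, h0, mulF_zero_left]
  obtain ⟨k, hk⟩ := hfm P hP hGe
  have hPk : P = conjS k V := by
    refine Subgroup.eq_of_le_of_card_ge hk ?_
    rw [Pool.Agent.Helper51_AWC.card_conjS, hPV]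
  refine ⟨k, by rw [← hPk]; exact hQP, ?_⟩
  rw [← hPk]
  obtain ⟨P', hP'⟩ : ∃ P' : Subgroup A,
    P' = (P.subgroupOf (Subgroup.normalizer (Q : Set G))).map p := ⟨_, rfl⟩
  rw [← hP']
  have hPNp : IsPGroup ℓ (P.subgroupOf (Subgroup.normalizer (Q : Set G))) :=
    hP.comap_of_injective (Subgroup.normalizer (Q : Set G)).subtype
      (Subgroup.normalizer (Q : Set G)).subtype_injective
  have hP'p : IsPGroup ℓ P' := by
    rw [hP']
    exact hPNp.map p
  have hP'C : P' ≤ q.range := by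
    rw [hP']
    rintro _ ⟨w, hw, rfl⟩
    refine ⟨⟨w, hPC (Subgroup.mem_subgroupOf.1 hw)⟩, ?_⟩
    rw [hq]
    rfl
  -- the block `g'`
  obtain ⟨g', hg'⟩ : ∃ g' : A → FF M, g' = push q d0 := ⟨_, rfl⟩
  have hBg : Bx q.range g' := by
    rw [hg']
    exact T3.H43.push_blk psg hF q hqc hqp hd0
  have hBd : Bd q.range g' := ⟨hnorm, hBg.supp, hBg.blk⟩
  rw [← hg'] at hd02
  have hgP' : Gd g' P' := by
    have h1 : Gd d0 (P.subgroupOf C) := by
      obtain ⟨x, hx, hx0⟩ := hδP
      have hxC : x ∈ C := by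
        by_contra h
        exact hx0 (hδs x h)
      refine ⟨⟨x, hxC⟩, (cent_sub hPC _).2 hx, ?_⟩
      have h2 := congrFun hδC ⟨x, hxC⟩
      rw [← h2]
      exact hx0
    have hkr : IsPGroup ℓ q.rangeRestrict.ker := by
      rw [MonoidHom.ker_rangeRestrict]
      exact hqp
    have h2 := (K9.H02.pug ℓ (FF M) hF C q.range q.rangeRestrict q.rangeRestrict_surjective
      hkr d0 hd0.1 (P.subgroupOf C) (by
        rw [MonoidHom.ker_rangeRestrict]
        intro c hc
        exact Subgroup.mem_subgroupOf.2 (hQP ((hqk c).1 hc)))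
      (hP.comap_of_injective C.subtype C.subtype_injective)).1 h1
    obtain ⟨y, hy, hy0⟩ := h2
    rw [← push_range, ← hg'] at hy0
    refine ⟨y, ?_, hy0⟩
    rw [Subgroup.mem_centralizer_iff] at hy ⊢
    rw [hP']
    rintro _ ⟨w, hw, rfl⟩
    have hwP : (w : G) ∈ P := Subgroup.mem_subgroupOf.1 hw
    have h3 := hy (q.rangeRestrict ⟨w, hPC hwP⟩) ⟨⟨w, hPC hwP⟩, Subgroup.mem_subgroupOf.2 hwP, rfl⟩
    have h4 : ((q.rangeRestrict ⟨w, hPC hwP⟩ : q.range) : A) = p w := by
      change q ⟨w, hPC hwP⟩ = p w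
      rw [hq]
      rfl
    have h5 := congrArg (fun t : q.range => (t : A)) h3
    change ((q.rangeRestrict ⟨w, hPC hwP⟩ : q.range) : A) * y =
      y * ((q.rangeRestrict ⟨w, hPC hwP⟩ : q.range) : A) at h5
    rwa [h4] at h5
  refine ⟨hP'p, cover_gd hF hBd hf.1 hd02 hP'C hP'p hgP', ?_⟩
  intro R' hR' hRf
  have hRf' : Gd f' R' := gd_of_mul hF hf'I.1 hf.1.1 hff hR' hRf
  have hRp : IsPGroup ℓ (R'.comap p) := hR'.comap_of_ker_isPGroup p hkp
  have hkR : p.ker ≤ R'.comap p := by
    intro x hx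
    rw [Subgroup.mem_comap, MonoidHom.mem_ker.1 hx]
    exact R'.one_mem
  have h1 := (K9.H02.pug ℓ (FF M) hF _ A p hp hkp _ hbrQ (R'.comap p) hkR hRp).2 (by
    rw [Subgroup.map_comap_eq_self_of_surjective hp, ← hf']
    exact hRf')
  have h2 : Gd (br Q e) ((R'.comap p).map (Subgroup.normalizer (Q : Set G)).subtype) :=
    gd_map h1
  have h3 : Gd e ((R'.comap p).map (Subgroup.normalizer (Q : Set G)).subtype) := by
    obtain ⟨x, hx, hx0⟩ := h2
    refine ⟨x, hx, ?_⟩
    by_cases hxQ : x ∈ Subgroup.centralizer (Q : Set G)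
    · rwa [br_in e hxQ] at hx0
    · exact absurd (br_out e hxQ) hx0
  have h4 := hLd.tp.mx _ (hRp.map _) h3
  rw [Subgroup.card_map_of_injective (Subgroup.normalizer (Q : Set G)).subtype_injective,
    card_comap hp R'] at h4
  have h5 : Nat.card V = Nat.card p.ker * Nat.card P' := by
    rw [← card_comap hp P', hP', Subgroup.comap_map_eq_self (by
      rw [hker]
      intro x hx
      exact Subgroup.mem_subgroupOf.2 (hQP (Subgroup.mem_subgroupOf.1 hx))),
      Nat.card_congr (Subgroup.subgroupOfEquivOfLe hPN).toEquiv, hPV]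
  rw [h5] at h4
  exact Nat.le_of_mul_le_mul_left h4 Nat.card_pos

end Pool.Agent.PP.T3.H65
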